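import Pool.Agent.Lib.MP_54c436_pu.Res

/-!
# MP_54c436_lc: `𝔭_U < 𝔭_cl(κ)` for a normal ultrafilter `U` is independent

From a measurable cardinal we get a countable transitive model of `ZFC` with a measurable cardinal
`k` in which `𝔭_u < 𝔭_cl(k)` fails for all normal ultrafilters `u` on `k`; from an indestructible
measurable cardinal we get a countable transitive model of `ZFC` with a measurable cardinal `k` in
which `𝔭_u < 𝔭_cl(k)` holds for all normal ultrafilters `u` on `k`.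
-/

set_option autoImplicit false

open Cardinal Set

namespace Pool.Agent.Results.MP_54c436_lc.NormalPseudoIndependent

open Pool.MP_3ade05_lc Pool.PC Pool.PU

theorem result :
    (∀ κ : Cardinal.{0}, κ.IsRegular → ℵ₀ < κ → (∃ W : Set (Set κ.ord.ToType), NormW κ W) →
      ∃ V : Set ZFSet.{0}, V.Countable ∧ (∀ x ∈ V, ∀ y ∈ x, y ∈ V) ∧ ZFCModel V ∧
        ∃ k : ZFSet.{0}, InfCard V k ∧ ZFSet.omega ∈ k ∧ (∃ u, NormalUFV V k u) ∧
          ∀ u, NormalUFV V k u → ¬ PLessV V k u) ∧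
    (∀ κ : Cardinal.{0}, IndMeas κ →
      ∃ V : Set ZFSet.{0}, V.Countable ∧ (∀ x ∈ V, ∀ y ∈ x, y ∈ V) ∧ ZFCModel V ∧
        ∃ k : ZFSet.{0}, InfCard V k ∧ ZFSet.omega ∈ k ∧ (∃ u, NormalUFV V k u) ∧
          ∀ u, NormalUFV V k u → PLessV V k u) :=
  independent

end Pool.Agent.Results.MP_54c436_lc.NormalPseudoIndependent
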